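import Pool.Agent.Helper78.QL.S1b

/-!
# QL-S1c: parameters, the iteration
-/

open MeasureTheory Real Set Filter Topology

set_option autoImplicit false

namespace Pool.Agent.Helper78.QL

open Pool.Agent.Helper22.AE
open Pool.Agent.Helper92.GC (dt tp Tq uu tt arc dd)
open Pool.Agent.Helper60.LT (Fr Tf xf yf df vf fr)
open Pool.Agent.Helper60.QL

/-- the number of steps -/
theorem exJ {η : ℝ} (hη : 0 < η) : ∃ J : ℕ, (2 * J + 201) * (10 / 11 : ℝ) ^ J ≤ η ∧ (10 / 11 : ℝ) ^ J ≤ 1 / 1000 := by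
  have h1 : Tendsto (fun J : ℕ => (J : ℝ) ^ 1 * (10 / 11 : ℝ) ^ J) atTop (nhds 0) :=
    tendsto_pow_const_mul_const_pow_of_lt_one 1 (by norm_num) (by norm_num)
  have h2 : Tendsto (fun J : ℕ => (10 / 11 : ℝ) ^ J) atTop (nhds 0) := tendsto_pow_atTop_nhds_zero_of_lt_one (by norm_num) (by norm_num)
  have h3 : Tendsto (fun J : ℕ => 2 * ((J : ℝ) ^ 1 * (10 / 11 : ℝ) ^ J) + 201 * (10 / 11 : ℝ) ^ J) atTop (nhds (2 * 0 + 201 * 0)) :=
    (h1.const_mul 2).add (h2.const_mul 201)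
  rw [show (2 * 0 + 201 * 0 : ℝ) = 0 by norm_num] at h3
  obtain ⟨J, hJ1, hJ2⟩ := ((h3.eventually_le_const hη).and (h2.eventually_le_const (by norm_num : (0 : ℝ) < 1 / 1000))).exists
  refine ⟨J, ?_, hJ2⟩
  calc (2 * J + 201) * (10 / 11 : ℝ) ^ J = 2 * ((J : ℝ) ^ 1 * (10 / 11 : ℝ) ^ J) + 201 * (10 / 11 : ℝ) ^ J := by ring
    _ ≤ η := hJ1

/-- the levels -/
def lev (m₁ M₁ : ℕ) : ℕ → ℕ
  | 0 => m₁
  | j + 1 => min M₁ (6 * lev m₁ M₁ j / 5)

theorem lev_le {m₁ M₁ : ℕ} (h : m₁ ≤ M₁) (j : ℕ) : lev m₁ M₁ j ≤ M₁ := by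
  cases j with
  | zero => exact h
  | succ j => exact min_le_left _ _

theorem lev_succ {m₁ M₁ : ℕ} (h : m₁ ≤ M₁) (j : ℕ) : lev m₁ M₁ j ≤ lev m₁ M₁ (j + 1) := by
  show lev m₁ M₁ j ≤ min M₁ (6 * lev m₁ M₁ j / 5)
  refine le_min (lev_le h j) ?_
  omega

theorem lev_ge {m₁ M₁ : ℕ} (h : m₁ ≤ M₁) (j : ℕ) : m₁ ≤ lev m₁ M₁ j := by
  induction j with
  | zero => exact le_rfl
  | succ j ih => exact ih.trans (lev_succ h j)

theorem lev_six (m₁ M₁ j : ℕ) : 5 * lev m₁ M₁ (j + 1) ≤ 6 * lev m₁ M₁ j := by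
  have : lev m₁ M₁ (j + 1) ≤ 6 * lev m₁ M₁ j / 5 := min_le_right _ _
  omega

theorem lev_grow {m₁ M₁ : ℕ} (h : m₁ ≤ M₁) (h8 : 8 ≤ m₁) (j : ℕ) : lev m₁ M₁ j = M₁ ∨ (11 / 10 : ℝ) ^ j * m₁ ≤ lev m₁ M₁ j := by
  induction j with
  | zero =>
    right
    rw [pow_zero, one_mul]
    exact le_rfl
  | succ j ih =>
    have hd : lev m₁ M₁ (j + 1) = min M₁ (6 * lev m₁ M₁ j / 5) := rfl
    have hge := lev_ge h j
    have hle := lev_le h j
    rcases ih with ih | ih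
    · left
      rw [hd, ih]
      apply min_eq_left
      omega
    · rcases le_total M₁ (6 * lev m₁ M₁ j / 5) with h1 | h1
      · left
        rw [hd, min_eq_left h1]
      · right
        rw [hd, min_eq_right h1]
        have h2 : 11 * lev m₁ M₁ j ≤ 10 * (6 * lev m₁ M₁ j / 5) := by omega
        have h3 : (11 : ℝ) * lev m₁ M₁ j ≤ 10 * ((6 * lev m₁ M₁ j / 5 : ℕ) : ℝ) := by exact_mod_cast h2
        rw [pow_succ]
        linarith

theorem lev_top {m₁ M₁ : ℕ} (h : m₁ ≤ M₁) (h8 : 8 ≤ m₁) {J : ℕ} (hJ : (100 * (10 / 11 : ℝ) ^ J) * M₁ < m₁) : lev m₁ M₁ J = M₁ := by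
  rcases lev_grow h h8 J with h1 | h1
  · exact h1
  · exfalso
    have h2 : (lev m₁ M₁ J : ℝ) ≤ M₁ := by exact_mod_cast lev_le h J
    have h3 : (11 / 10 : ℝ) ^ J * (10 / 11 : ℝ) ^ J = 1 := by
      rw [← mul_pow]
      norm_num
    have h4 : (0 : ℝ) < (11 / 10 : ℝ) ^ J := by positivity
    have h5 := mul_lt_mul_of_pos_left hJ h4
    have h6 : (11 / 10 : ℝ) ^ J * (100 * (10 / 11 : ℝ) ^ J * M₁) = 100 * M₁ := by
      calc (11 / 10 : ℝ) ^ J * (100 * (10 / 11 : ℝ) ^ J * M₁) = ((11 / 10 : ℝ) ^ J * (10 / 11 : ℝ) ^ J) * (100 * M₁) := by ring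
        _ = 100 * M₁ := by rw [h3, one_mul]
    have h7 : (8 : ℝ) ≤ M₁ := by exact_mod_cast h8.trans h
    linarith

theorem six_five {M κ C : ℝ} {m p q : ℕ} (hM : 1 ≤ M) (hC : 0 ≤ C) (hC1 : C ≤ κ) (h : κ ^ 10 ≤ M ^ m) (hge : m ≤ p) (h56 : 5 * q ≤ 6 * p) :
    C * κ * M ^ (4 * q) ≤ M ^ (5 * p) := by
  have hM0 : 0 < M := by linarith
  have hκ : 0 ≤ κ := hC.trans hC1
  have h0 : C * κ * M ^ (4 * q) ≤ κ * κ * M ^ (4 * q) := by
    apply mul_le_mul_of_nonneg_right _ (by positivity)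
    exact mul_le_mul_of_nonneg_right hC1 hκ
  have e1 : (κ * κ * M ^ (4 * q)) ^ 5 = κ ^ 10 * M ^ (20 * q) := by
    rw [mul_pow, ← pow_mul, ← pow_two, ← pow_mul]
    congr 2
    ring
  have e2 : (M ^ (5 * p)) ^ 5 = M ^ p * M ^ (24 * p) := by
    rw [← pow_add, ← pow_mul]
    congr 1
    ring
  have h1 : (κ * κ * M ^ (4 * q)) ^ 5 ≤ (M ^ (5 * p)) ^ 5 := by
    rw [e1, e2]
    exact mul_le_mul (h.trans (pow_le_pow_right₀ hM hge)) (pow_le_pow_right₀ hM (by omega)) (by positivity) (by positivity)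
  exact h0.trans (le_of_pow_le_pow_left₀ (by norm_num) (by positivity) h1)

theorem iter_core {η lam B : ℝ} (hη : 0 < η) (hl : 1 ≤ lam) (hB : 1 ≤ B)
    (hs : ∀ ε : ℝ, 0 < ε → ∃ M : ℕ, 2 ≤ M ∧ ∀ (n : ℕ) (B : ℝ), 1 ≤ B → ∃ C B' E : ℝ, ∃ m₀ : ℕ, 1 ≤ C ∧ B ≤ B' ∧ 1 ≤ E ∧ StepAt ε lam M n B C B' E m₀) :
    ∃ (M : ℕ) (C B' : ℝ), 2 ≤ M ∧ 1 ≤ C ∧ B ≤ B' ∧ ∀ (X H : ℝ) (S : Finset (ℤ × ℤ)), 1 ≤ X → 1 ≤ H → H ≤ X → Cone H lam S →
      ∃ m : ℕ, X * H ≤ C * X ^ η * (M : ℝ) ^ (4 * m) ∧ (M : ℝ) ^ (4 * m) ≤ X * H ∧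
        II B X S ^ (1 / 10 : ℝ) ≤ ENNReal.ofReal (C * X ^ η) * ∑ r ∈ Finset.range (M ^ m), (II B' X (arc 0 S (M ^ m) r) + 1) ^ (1 / 10 : ℝ) := by
  obtain ⟨J, hJ1, hJ2⟩ := exJ hη
  obtain ⟨e, he⟩ : ∃ e, e = (10 / 11 : ℝ) ^ J := ⟨_, rfl⟩
  have he0 : 0 < e := by rw [he]; positivity
  rw [← he] at hJ1 hJ2
  obtain ⟨M, hM, hs⟩ := hs (2 * e) (by positivity)
  obtain ⟨n, hn⟩ : ∃ n : ℕ, n = ⌈60 / e⌉₊ := ⟨_, rfl⟩
  have hn60 : 60 ≤ e * n := by
    have : 60 / e ≤ n := by rw [hn]; exact Nat.le_ceil _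
    rwa [div_le_iff₀ he0, mul_comm] at this
  obtain ⟨C₁, B', E, m₀, hC₁, hB', hE, hch⟩ := chain (by positivity : 0 < 2 * e) hM (hs n) J B hB
  have hM1 : (1 : ℝ) < M := by
    have : 1 < M := by omega
    exact_mod_cast this
  have hM0 : (0 : ℝ) < M := by linarith
  have ev : ∀ᶠ X : ℝ in atTop, C₁ ≤ X ^ e ∧ (M : ℝ) ^ (m₀ + 12) ≤ X ^ (100 * e) ∧ C₁ ≤ X ^ (1 / 2 : ℝ) ∧ (M : ℝ) ≤ X ^ e ∧ E * 49 ^ 20 * lam ^ 40 ≤ X := by
    refine (((tendsto_rpow_atTop he0).eventually_ge_atTop C₁)).and (((tendsto_rpow_atTop (by positivity : 0 < 100 * e)).eventually_ge_atTop _).and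
      (((tendsto_rpow_atTop (by norm_num : (0 : ℝ) < 1 / 2)).eventually_ge_atTop _).and
      (((tendsto_rpow_atTop he0).eventually_ge_atTop _).and (eventually_ge_atTop _))))
  obtain ⟨X₀, hX₀⟩ := eventually_atTop.1 ev
  obtain ⟨C, hC⟩ : ∃ C, C = max (max (X₀ ^ 2) 1) (max (C₁ ^ J) (C₁ * (M : ℝ) ^ 4)) := ⟨_, rfl⟩
  have hCa : X₀ ^ 2 ≤ C := by rw [hC]; exact le_max_of_le_left (le_max_left _ _)
  have hCb : 1 ≤ C := by rw [hC]; exact le_max_of_le_left (le_max_right _ _)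
  have hCc : C₁ ^ J ≤ C := by rw [hC]; exact le_max_of_le_right (le_max_left _ _)
  have hCd : C₁ * (M : ℝ) ^ 4 ≤ C := by rw [hC]; exact le_max_of_le_right (le_max_right _ _)
  refine ⟨M, C, B', hM, hCb, hB', ?_⟩
  intro X H S hX hH hHX hS
  have hX0 : 0 < X := by linarith
  have hXη : 1 ≤ X ^ η := Real.one_le_rpow hX hη.le
  have hXH1 : 1 ≤ X * H := one_le_mul_of_one_le_of_one_le hX hH
  rcases lt_or_ge X X₀ with hlt | hge
  · refine ⟨0, ?_, ?_, ?_⟩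
    · rw [mul_zero, pow_zero, mul_one]
      calc X * H ≤ X₀ * X₀ := mul_le_mul hlt.le (hHX.trans hlt.le) (by linarith) (by linarith)
        _ = X₀ ^ 2 := by ring
        _ ≤ C := hCa
        _ ≤ C * X ^ η := le_mul_of_one_le_right (by linarith) hXη
    · rw [mul_zero, pow_zero]
      exact hXH1
    · rw [pow_zero, Finset.sum_range_one, arc_one (by linarith) (by linarith) hS]
      have h1 : (1 : ENNReal) ≤ ENNReal.ofReal (C * X ^ η) := by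
        rw [ENNReal.one_le_ofReal]
        exact one_le_mul_of_one_le_of_one_le hCb hXη
      calc II B X S ^ (1 / 10 : ℝ) ≤ (II B' X S + 1) ^ (1 / 10 : ℝ) := ENNReal.rpow_le_rpow ((II_mono hX0.le hB' S).trans le_self_add) (by norm_num)
        _ = 1 * (II B' X S + 1) ^ (1 / 10 : ℝ) := by rw [one_mul]
        _ ≤ _ := mul_le_mul' h1 le_rfl
  · obtain ⟨ha, hb, hc, hd, hf⟩ := hX₀ X hge
    obtain ⟨κ, hκ⟩ : ∃ κ, κ = X ^ e := ⟨_, rfl⟩
    have hκ1 : 1 ≤ κ := by rw [hκ]; exact Real.one_le_rpow hX he0.le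
    have hκpow : ∀ i : ℕ, κ ^ i = X ^ (i * e) := by
      intro i
      rw [hκ, ← Real.rpow_natCast, ← Real.rpow_mul hX0.le]
      congr 1
      ring
    obtain ⟨m₁, hm₁a, hm₁b⟩ := exists_nat_pow_near (Real.one_le_rpow hX (by positivity : 0 ≤ 100 * e)) hM1
    have hxH : C₁ * κ * X ^ (400 * e) ≤ X * H := by
      have h1 : κ * X ^ (400 * e) = X ^ (401 * e) := by
        rw [hκ, ← Real.rpow_add hX0]
        congr 1
        ring
      have h2 : X ^ (401 * e) ≤ X ^ (1 / 2 : ℝ) := Real.rpow_le_rpow_of_exponent_le hX (by linarith)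
      have h3 : X ^ (1 / 2 : ℝ) * X ^ (1 / 2 : ℝ) = X := by
        rw [← Real.rpow_add hX0]
        norm_num
      calc C₁ * κ * X ^ (400 * e) = C₁ * X ^ (401 * e) := by rw [mul_assoc, h1]
        _ ≤ X ^ (1 / 2 : ℝ) * X ^ (1 / 2 : ℝ) := by gcongr
        _ = X := h3
        _ ≤ X * H := le_mul_of_one_le_right hX0.le hH
    have hCκ : 0 < C₁ * κ := by positivity
    have hx2 : X ^ (400 * e) ≤ X * H / (C₁ * κ) := by
      rw [le_div_iff₀ hCκ, mul_comm]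
      exact hxH
    obtain ⟨m₂, hm₂a, hm₂b⟩ := exists_nat_pow_near (le_trans (Real.one_le_rpow hX (by positivity : 0 ≤ 400 * e)) hx2)
      (one_lt_pow₀ hM1 (by norm_num : (4 : ℕ) ≠ 0))
    have hm01 : m₀ + 11 ≤ m₁ := by
      have := (pow_lt_pow_iff_right₀ hM1).1 (lt_of_le_of_lt hb hm₁b)
      omega
    have hm12 : m₁ ≤ m₂ := by
      have h1 : ((M : ℝ) ^ 4) ^ m₁ ≤ X ^ (400 * e) := by
        rw [← pow_mul, mul_comm, pow_mul]
        calc ((M : ℝ) ^ m₁) ^ 4 ≤ (X ^ (100 * e)) ^ 4 := by gcongr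
          _ = X ^ (400 * e) := by
            rw [← Real.rpow_natCast, ← Real.rpow_mul hX0.le]
            congr 1
            push_cast
            ring
      have h2 := lt_of_le_of_lt (h1.trans hx2) hm₂b
      have h3 := (pow_lt_pow_iff_right₀ (one_lt_pow₀ hM1 (by norm_num : (4 : ℕ) ≠ 0))).1 h2
      omega
    have hm2XH : (M : ℝ) ^ (4 * m₂) * (C₁ * κ) ≤ X * H := by
      rw [le_div_iff₀ hCκ] at hm₂a
      rw [pow_mul]
      exact hm₂a
    have hCκ1 : 1 ≤ C₁ * κ := one_le_mul_of_one_le_of_one_le hC₁ hκ1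
    have hm2XH' : (M : ℝ) ^ (4 * m₂) ≤ X * H := le_trans (le_mul_of_one_le_right (by positivity) hCκ1) hm2XH
    have hsq : ((M : ℝ) ^ m₂) ^ 2 ≤ X := by
      have h1 : (((M : ℝ) ^ m₂) ^ 2) ^ 2 ≤ X ^ 2 := by
        calc (((M : ℝ) ^ m₂) ^ 2) ^ 2 = (M : ℝ) ^ (4 * m₂) := by ring
          _ ≤ X * H := hm2XH'
          _ ≤ X ^ 2 := by nlinarith
      exact le_of_sq_le_sq h1 hX0.le
    have hlev : ∀ j, (M : ℝ) ^ lev m₁ m₂ j ≤ (M : ℝ) ^ m₂ := fun j => pow_le_pow_right₀ hM1.le (lev_le hm12 j)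
    have hratio : (100 * (10 / 11 : ℝ) ^ J) * m₂ < m₁ := by
      rw [← he]
      have h1 : X ^ (100 * e) < (M : ℝ) ^ (2 * m₁) := lt_of_lt_of_le hm₁b (pow_le_pow_right₀ hM1.le (by omega))
      have h2 : (((M : ℝ) ^ m₂) ^ 2) ^ (100 * e) ≤ X ^ (100 * e) := Real.rpow_le_rpow (by positivity) hsq (by positivity)
      have h3 := lt_of_le_of_lt h2 h1
      rw [← pow_mul, ← Real.rpow_natCast (M : ℝ) (m₂ * 2), ← Real.rpow_mul hM0.le, ← Real.rpow_natCast (M : ℝ) (2 * m₁),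
        Real.rpow_lt_rpow_left_iff hM1] at h3
      push_cast at h3
      linarith
    have htop : lev m₁ m₂ J = m₂ := lev_top hm12 (by omega) hratio
    have hMlow : κ ^ 10 ≤ (M : ℝ) ^ m₁ := by
      have h1 : κ ^ 10 * M ≤ X ^ (100 * e) := by
        calc κ ^ 10 * M ≤ κ ^ 10 * κ := by gcongr; rw [hκ]; exact hd
          _ = κ ^ 11 := by ring
          _ = X ^ ((11 : ℕ) * e) := hκpow 11
          _ ≤ X ^ (100 * e) := Real.rpow_le_rpow_of_exponent_le hX (by push_cast; linarith)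
      have h2 : κ ^ 10 * M < (M : ℝ) ^ m₁ * M := by
        rw [← pow_succ]
        exact lt_of_le_of_lt h1 hm₁b
      exact (lt_of_mul_lt_mul_right h2 hM0.le).le
    have hQ := hch (lev m₁ m₂) X H κ κ S (by show m₀ ≤ m₁; omega) (lev_succ hm12) hX hH (by rw [hκ]; exact ha) hS hκ1 ?_ ?_ ?_ ?_
    · rw [htop] at hQ
      change QQ M B X S m₁ ≤ _ at hQ
      refine ⟨m₂, ?_, hm2XH', ?_⟩
      · have h1 : X * H ≤ (M : ℝ) ^ (4 * (m₂ + 1)) * (C₁ * κ) := by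
          rw [div_lt_iff₀ hCκ] at hm₂b
          rw [pow_mul]
          exact hm₂b.le
        have h2 : κ ≤ X ^ η := by
          rw [hκ]
          refine Real.rpow_le_rpow_of_exponent_le hX ?_
          have : (0 : ℝ) ≤ J := Nat.cast_nonneg J
          nlinarith
        calc X * H ≤ (M : ℝ) ^ (4 * (m₂ + 1)) * (C₁ * κ) := h1
          _ = (C₁ * (M : ℝ) ^ 4) * κ * (M : ℝ) ^ (4 * m₂) := by ring
          _ ≤ C * X ^ η * (M : ℝ) ^ (4 * m₂) := by gcongr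
      · have hHp : 0 < H := by linarith
        have hlp : 0 < lam := by linarith
        have h1 : II B X S ^ (1 / 10 : ℝ) ≤ ENNReal.ofReal (((M : ℝ) ^ m₁) ^ 2) * QQ M B X S m₁ := by
          have h2 := root_arcs (B := B) (X := X) hHp hlp hS (N := M ^ m₁) (Nat.one_le_pow _ _ (by omega))
          push_cast at h2
          exact h2.trans (mul_le_mul' le_rfl (QQ_ge B X S m₁))
        refine h1.trans ((mul_le_mul' le_rfl hQ).trans ?_)
        rw [← mul_assoc, ← ENNReal.ofReal_mul (by positivity)]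
        refine mul_le_mul' (ENNReal.ofReal_le_ofReal ?_) le_rfl
        have h3 : ((M : ℝ) ^ m₁) ^ 2 ≤ X ^ (200 * e) := by
          calc ((M : ℝ) ^ m₁) ^ 2 ≤ (X ^ (100 * e)) ^ 2 := by gcongr
            _ = X ^ (200 * e) := by
              rw [← Real.rpow_natCast, ← Real.rpow_mul hX0.le]
              congr 1
              push_cast
              ring
        have h4 : (C₁ * κ * κ) ^ J = C₁ ^ J * X ^ ((2 * J : ℕ) * e) := by
          rw [← hκpow, pow_mul]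
          ring
        calc ((M : ℝ) ^ m₁) ^ 2 * (C₁ * κ * κ) ^ J ≤ X ^ (200 * e) * (C₁ ^ J * X ^ ((2 * J : ℕ) * e)) := by rw [h4]; gcongr
          _ = C₁ ^ J * (X ^ (200 * e) * X ^ ((2 * J : ℕ) * e)) := by ring
          _ = C₁ ^ J * X ^ (200 * e + (2 * J : ℕ) * e) := by rw [← Real.rpow_add hX0]
          _ ≤ C * X ^ η := by
            gcongr
            push_cast
            linarith
    · intro j _
      calc C₁ * κ * (M : ℝ) ^ (4 * lev m₁ m₂ (j + 1)) ≤ C₁ * κ * (M : ℝ) ^ (4 * m₂) :=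
            mul_le_mul_of_nonneg_left (pow_le_pow_right₀ hM1.le (Nat.mul_le_mul_left 4 (lev_le hm12 (j + 1)))) hCκ.le
        _ = (M : ℝ) ^ (4 * m₂) * (C₁ * κ) := by ring
        _ ≤ X * H := hm2XH
    · intro j _
      exact six_five hM1.le (by linarith) (by rw [hκ]; exact ha) hMlow (lev_ge hm12 j) (lev_six m₁ m₂ j)
    · intro j _
      have h1 : (M : ℝ) ^ (2 * e * (lev m₁ m₂ (j + 1) : ℝ)) = (((M : ℝ) ^ lev m₁ m₂ (j + 1)) ^ 2) ^ e := by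
        rw [← pow_mul, ← Real.rpow_natCast, ← Real.rpow_mul hM0.le]
        congr 1
        push_cast
        ring
      rw [h1, hκ]
      refine Real.rpow_le_rpow (by positivity) (le_trans ?_ hsq) he0.le
      exact pow_le_pow_left₀ (by positivity) (hlev _) 2
    · intro j _
      have h1 : (M : ℝ) ^ lev m₁ m₂ j * (M : ℝ) ^ lev m₁ m₂ (j + 1) ≤ X := by
        calc (M : ℝ) ^ lev m₁ m₂ j * (M : ℝ) ^ lev m₁ m₂ (j + 1) ≤ (M : ℝ) ^ m₂ * (M : ℝ) ^ m₂ :=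
              mul_le_mul (hlev j) (hlev (j + 1)) (by positivity) (by positivity)
          _ = ((M : ℝ) ^ m₂) ^ 2 := by ring
          _ ≤ X := hsq
      have h2 : (S.card : ℝ) ≤ 49 * lam ^ 2 * X ^ 2 := (card_le hH hl hS).trans (by gcongr)
      have h3 : X ^ 60 ≤ κ ^ n := by
        rw [hκpow, ← Real.rpow_natCast X 60]
        refine Real.rpow_le_rpow_of_exponent_le hX ?_
        push_cast
        linarith
      have h4 : κ⁻¹ ^ n ≤ (X ^ 60)⁻¹ := by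
        rw [inv_pow]
        exact inv_anti₀ (by positivity) h3
      calc E * X ^ 4 * (S.card : ℝ) ^ 20 * κ⁻¹ ^ n * ((M : ℝ) ^ lev m₁ m₂ j * (M : ℝ) ^ lev m₁ m₂ (j + 1)) ^ 10 ≤
            E * X ^ 4 * (49 * lam ^ 2 * X ^ 2) ^ 20 * (X ^ 60)⁻¹ * X ^ 10 := by gcongr
        _ = (E * 49 ^ 20 * lam ^ 40) * (X ^ 6)⁻¹ := by
          field_simp
        _ ≤ X * (X ^ 6)⁻¹ := by gcongr
        _ = (X ^ 5)⁻¹ := by
          field_simp
        _ ≤ 1 := inv_le_one_of_one_le₀ (one_le_pow₀ hX)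

end Pool.Agent.Helper78.QL
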