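import Pool.Agent.Helper78.QL.S1c
import Pool.Agent.Helper3.QL.L6

/-!
# QL-S1: the iteration, sectors of width about `(X H)^(-1/4)`

`iter_core` (S1c) with the step of L6.
-/

open MeasureTheory Real Set Filter Topology

set_option autoImplicit false

namespace Pool.Agent.Helper60.QL

open Pool.Agent.Helper22.AE
open Pool.Agent.Helper92.GC (dt tp Tq uu tt arc dd)

theorem iter {η lam B : ℝ} (hη : 0 < η) (hl : 1 ≤ lam) (hB : 1 ≤ B) (hd : ∀ ε : ℝ, 0 < ε → ∃ M : ℕ, 2 ≤ M ∧ ∃ C₀ : ℝ, 1 ≤ C₀ ∧ Dec20 ε lam M C₀) :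
    ∃ (M : ℕ) (C B' : ℝ), 2 ≤ M ∧ 1 ≤ C ∧ B ≤ B' ∧ ∀ (X H : ℝ) (S : Finset (ℤ × ℤ)), 1 ≤ X → 1 ≤ H → H ≤ X → Cone H lam S →
      ∃ m : ℕ, X * H ≤ C * X ^ η * (M : ℝ) ^ (4 * m) ∧ (M : ℝ) ^ (4 * m) ≤ X * H ∧
        II B X S ^ (1 / 10 : ℝ) ≤ ENNReal.ofReal (C * X ^ η) * ∑ r ∈ Finset.range (M ^ m), (II B' X (arc 0 S (M ^ m) r) + 1) ^ (1 / 10 : ℝ) := by
  refine Pool.Agent.Helper78.QL.iter_core hη hl hB fun ε hε => ?_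
  obtain ⟨M, hM, C₀, hC₀, hdec⟩ := hd ε hε
  exact ⟨M, hM, fun n B hB => step hε hl hB hM hC₀ hdec n⟩

end Pool.Agent.Helper60.QL
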