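import Pool.Agent.Helper60.QL.Defs
import Pool.Agent.Helper75.TW.A3

/-!
# QL-S1a: arcs of arcs, the integral over the frames of a finite union of arcs
-/

open MeasureTheory Real Set Filter Topology

set_option autoImplicit false

namespace Pool.Agent.Helper78.QL

open Pool.Agent.Helper22.AE
open Pool.Agent.Helper92.GC (dt tp Tq uu tt arc dd)
open Pool.Agent.Helper75.TW (m20 m20_nonneg m20_congr m20_cont_coef)
open Pool.Agent.Helper60.LT (Fr Tf xf yf df vf fr)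
open Pool.Agent.Helper60.QL

theorem mem_arc {β : ℝ} {S : Finset (ℤ × ℤ)} {N j : ℕ} {k : ℤ × ℤ} :
    k ∈ arc β S N j ↔ k ∈ S ∧ ⌊(N : ℝ) * ((tt β k + 6) / 12)⌋₊ = j := by
  classical
  unfold arc
  rw [Finset.mem_filter]

/-- arcs of arcs -/
theorem arc_arc {β : ℝ} {S : Finset (ℤ × ℤ)} {M m m' r r' : ℕ} (hM : 1 ≤ M) (hm : m ≤ m') :
    arc β (arc β S (M ^ m) r) (M ^ m') r' = if r' / M ^ (m' - m) = r then arc β S (M ^ m') r' else ∅ := by
  have hfl : ∀ k : ℤ × ℤ, ⌊((M ^ m : ℕ) : ℝ) * ((tt β k + 6) / 12)⌋₊ = ⌊((M ^ m' : ℕ) : ℝ) * ((tt β k + 6) / 12)⌋₊ / M ^ (m' - m) := by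
    intro k
    rw [← Nat.floor_div_natCast]
    congr 1
    have hMp : (0 : ℝ) < (M : ℝ) := by exact_mod_cast hM
    have e : (M : ℝ) ^ m' = (M : ℝ) ^ m * (M : ℝ) ^ (m' - m) := by
      rw [← pow_add, Nat.add_sub_cancel' hm]
    push_cast
    rw [e]
    field_simp
  ext k
  by_cases h : r' / M ^ (m' - m) = r
  · rw [if_pos h, mem_arc, mem_arc, mem_arc]
    constructor
    · rintro ⟨⟨h1, -⟩, h3⟩
      exact ⟨h1, h3⟩
    · rintro ⟨h1, h2⟩
      refine ⟨⟨h1, ?_⟩, h2⟩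
      rw [hfl, h2, h]
  · rw [if_neg h, mem_arc, mem_arc]
    constructor
    · rintro ⟨⟨-, h2⟩, h3⟩
      exfalso
      apply h
      rw [hfl, h3] at h2
      exact h2
    · intro h1
      simp at h1

theorem ff_meas (S : Finset (ℤ × ℤ)) : Measurable (ff S) := by
  refine (Continuous.measurable ?_).ennreal_ofReal
  refine m20_cont_coef S (fun (f : Fr) k => ee (nm (vf f k))) fun k _ => ee_cont.comp ?_
  unfold nm vf
  fun_prop

theorem ff_empty (f : Fr) : ff ∅ f = 0 := by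
  unfold ff m20 tp
  simp

theorem II_empty (B X : ℝ) : II B X ∅ = 0 := by
  unfold II
  simp only [ff_empty, lintegral_zero]

theorem UB_mono {B B' X : ℝ} (hX : 0 ≤ X) (h : B ≤ B') : UB B X ⊆ UB B' X := by
  rintro f ⟨h1, h2, h3, h4, h5⟩
  have hBX : B * X ≤ B' * X := mul_le_mul_of_nonneg_right h hX
  exact ⟨h1.trans hBX, h2.trans hBX, h3.trans hBX, h4.trans hBX, h5.trans (mul_le_mul_of_nonneg_right h (abs_nonneg _))⟩

theorem II_mono {B B' X : ℝ} (hX : 0 ≤ X) (h : B ≤ B') (S : Finset (ℤ × ℤ)) : II B X S ≤ II B' X S := by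
  unfold II
  exact lintegral_mono_set (UB_mono hX h)

/-- the frequencies of the cone are covered by the arcs -/
theorem fl_lt {H lam : ℝ} {S : Finset (ℤ × ℤ)} (hH : 0 < H) (hl : 0 < lam) (hS : Cone H lam S) {N : ℕ} (hN : 1 ≤ N) {k : ℤ × ℤ} (hk : k ∈ S) :
    ⌊(N : ℝ) * ((tt 0 k + 6) / 12)⌋₊ < N := by
  obtain ⟨h1, h2, h3⟩ := hS k hk
  have h0 : (0 : ℝ) < k.1 := lt_of_lt_of_le (by positivity) h1
  have hu : uu 0 k = k.1 := by unfold uu; ring
  have ht : |tt 0 k| ≤ 2 := by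
    unfold tt
    rw [hu, abs_div, abs_of_pos h0, div_le_iff₀ h0]
    exact h3
  have hN0 : (0 : ℝ) < N := by exact_mod_cast hN
  have ht' := abs_le.1 ht
  rw [Nat.floor_lt (by have : 0 ≤ (tt 0 k + 6) / 12 := by linarith
                       positivity)]
  have : (tt 0 k + 6) / 12 < 1 := by linarith
  nlinarith

theorem arc_one {H lam : ℝ} {S : Finset (ℤ × ℤ)} (hH : 0 < H) (hl : 0 < lam) (hS : Cone H lam S) : arc 0 S 1 0 = S := by
  ext k
  rw [mem_arc]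
  constructor
  · exact fun h => h.1
  · intro h
    have := fl_lt hH hl hS le_rfl h
    exact ⟨h, by omega⟩

theorem tp_arcs {H lam : ℝ} {S : Finset (ℤ × ℤ)} (hH : 0 < H) (hl : 0 < lam) (hS : Cone H lam S) {N : ℕ} (hN : 1 ≤ N) (a : ℤ × ℤ → ℂ) (c : ℝ × ℝ) :
    tp S a c = ∑ r ∈ Finset.range N, tp (arc 0 S N r) a c := by
  classical
  unfold tp
  rw [← Finset.sum_fiberwise_of_maps_to (s := S) (t := Finset.range N) (g := fun k => ⌊(N : ℝ) * ((tt 0 k + 6) / 12)⌋₊)]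
  · refine Finset.sum_congr rfl fun r _ => Finset.sum_congr ?_ fun _ _ => rfl
    ext k
    rw [Finset.mem_filter, mem_arc]
  · intro k hk
    rw [Finset.mem_range]
    exact fl_lt hH hl hS hN hk

theorem tp_cont (S : Finset (ℤ × ℤ)) (a : ℤ × ℤ → ℂ) : Continuous (tp S a) := by
  unfold tp
  refine continuous_finsetSum _ fun k _ => continuous_const.mul (ee_cont.comp ?_)
  unfold dt
  fun_prop

theorem tp_int (S : Finset (ℤ × ℤ)) (a : ℤ × ℤ → ℂ) : IntegrableOn (fun c => ‖tp S a c‖ ^ 20) Tq := by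
  refine ContinuousOn.integrableOn_compact (isCompact_Icc.prod isCompact_Icc) ?_
  exact (((tp_cont S a).norm).pow 20).continuousOn

/-- Hoelder for the arcs -/
theorem m20_arcs {H lam : ℝ} {S : Finset (ℤ × ℤ)} (hH : 0 < H) (hl : 0 < lam) (hS : Cone H lam S) {N : ℕ} (hN : 1 ≤ N) (a : ℤ × ℤ → ℂ) :
    m20 S a ≤ (N : ℝ) ^ 19 * ∑ r ∈ Finset.range N, m20 (arc 0 S N r) a := by
  have h1 : ∀ c, ‖tp S a c‖ ^ 20 ≤ (N : ℝ) ^ 19 * ∑ r ∈ Finset.range N, ‖tp (arc 0 S N r) a c‖ ^ 20 := by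
    intro c
    rw [tp_arcs hH hl hS hN a c]
    have h2 := pow_sum_le_card_mul_sum_pow (s := Finset.range N) (f := fun r => ‖tp (arc 0 S N r) a c‖) (fun r _ => norm_nonneg _) 19
    rw [Finset.card_range] at h2
    refine le_trans ?_ h2
    exact pow_le_pow_left₀ (norm_nonneg _) (norm_sum_le _ _) 20
  unfold m20
  rw [← integral_finsetSum _ (fun r _ => tp_int _ _), ← integral_const_mul]
  refine integral_mono (tp_int _ _) ?_ h1
  exact (integrable_finsetSum _ fun r _ => tp_int (arc 0 S N r) a).const_mul _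

/-- subadditivity of the root -/
theorem root_sum {ι : Type} (s : Finset ι) (f : ι → ENNReal) : (∑ i ∈ s, f i) ^ (1 / 10 : ℝ) ≤ ∑ i ∈ s, f i ^ (1 / 10 : ℝ) := by
  classical
  induction s using Finset.induction_on with
  | empty => simp
  | insert i s hi ih =>
    rw [Finset.sum_insert hi, Finset.sum_insert hi]
    exact (ENNReal.rpow_add_le_add_rpow _ _ (by norm_num) (by norm_num)).trans (by gcongr)

theorem II_arcs {B X H lam : ℝ} {S : Finset (ℤ × ℤ)} (hH : 0 < H) (hl : 0 < lam) (hS : Cone H lam S) {N : ℕ} (hN : 1 ≤ N) :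
    II B X S ≤ ENNReal.ofReal ((N : ℝ) ^ 19) * ∑ r ∈ Finset.range N, II B X (arc 0 S N r) := by
  unfold II
  rw [← lintegral_finsetSum _ (fun r _ => ff_meas _), ← lintegral_const_mul]
  · refine lintegral_mono fun f => ?_
    simp only [ff]
    rw [← ENNReal.ofReal_sum_of_nonneg (fun r _ => m20_nonneg _ _), ← ENNReal.ofReal_mul (by positivity)]
    exact ENNReal.ofReal_le_ofReal (m20_arcs hH hl hS hN _)
  · exact Finset.measurable_sum _ fun r _ => ff_meas _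

theorem root_arcs {B X H lam : ℝ} {S : Finset (ℤ × ℤ)} (hH : 0 < H) (hl : 0 < lam) (hS : Cone H lam S) {N : ℕ} (hN : 1 ≤ N) :
    II B X S ^ (1 / 10 : ℝ) ≤ ENNReal.ofReal ((N : ℝ) ^ (2 : ℕ)) * ∑ r ∈ Finset.range N, II B X (arc 0 S N r) ^ (1 / 10 : ℝ) := by
  have hN0 : (1 : ℝ) ≤ N := by exact_mod_cast hN
  refine (ENNReal.rpow_le_rpow (II_arcs hH hl hS hN) (by norm_num)).trans ?_
  rw [ENNReal.mul_rpow_of_nonneg _ _ (by norm_num)]
  refine mul_le_mul' ?_ (root_sum _ _)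
  rw [ENNReal.ofReal_rpow_of_nonneg (by positivity) (by norm_num)]
  refine ENNReal.ofReal_le_ofReal ?_
  calc ((N : ℝ) ^ 19) ^ (1 / 10 : ℝ) ≤ ((N : ℝ) ^ 20) ^ (1 / 10 : ℝ) := by
        refine Real.rpow_le_rpow (by positivity) ?_ (by norm_num)
        exact pow_le_pow_right₀ hN0 (by norm_num)
    _ = (N : ℝ) ^ (2 : ℕ) := by
        rw [← Real.rpow_natCast (N : ℝ) 20, ← Real.rpow_mul (by positivity), ← Real.rpow_natCast (N : ℝ) 2]
        norm_num

/-- the number of frequencies -/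
theorem card_le {H lam : ℝ} {S : Finset (ℤ × ℤ)} (hH : 1 ≤ H) (hl : 1 ≤ lam) (hS : Cone H lam S) : (S.card : ℝ) ≤ 49 * lam ^ 2 * H ^ 2 := by
  obtain ⟨N, hN⟩ : ∃ N : ℕ, N = ⌈2 * lam * H⌉₊ := ⟨_, rfl⟩
  have hlH : 1 ≤ lam * H := one_le_mul_of_one_le_of_one_le hl hH
  have h1 : (N : ℝ) < 2 * lam * H + 1 := by
    rw [hN]
    exact Nat.ceil_lt_add_one (by nlinarith)
  have h2 : 2 * lam * H ≤ N := by
    rw [hN]
    exact Nat.le_ceil _
  have hsub : S ⊆ Finset.Icc (-(N : ℤ)) N ×ˢ Finset.Icc (-(N : ℤ)) N := by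
    intro k hk
    obtain ⟨g1, g2, g3⟩ := hS k hk
    have g0 : (0 : ℝ) < k.1 := lt_of_lt_of_le (by positivity) g1
    have g3' := abs_le.1 g3
    rw [Finset.mem_product, Finset.mem_Icc, Finset.mem_Icc]
    refine ⟨⟨?_, ?_⟩, ⟨?_, ?_⟩⟩
    · have : (-(N : ℤ) : ℝ) ≤ k.1 := by push_cast; linarith
      exact_mod_cast this
    · have : (k.1 : ℝ) ≤ (N : ℤ) := by push_cast; nlinarith
      exact_mod_cast this
    · have : (-(N : ℤ) : ℝ) ≤ k.2 := by push_cast; nlinarith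
      exact_mod_cast this
    · have : (k.2 : ℝ) ≤ (N : ℤ) := by push_cast; nlinarith
      exact_mod_cast this
  have hc := Finset.card_le_card hsub
  rw [Finset.card_product, Int.card_Icc] at hc
  have e : (((N : ℤ) + 1 - -(N : ℤ)).toNat : ℕ) = 2 * N + 1 := by omega
  rw [e] at hc
  have hc' : (S.card : ℝ) ≤ (2 * N + 1) * (2 * N + 1) := by exact_mod_cast hc
  refine hc'.trans ?_
  have h3 : (2 * N + 1 : ℝ) ≤ 7 * (lam * H) := by linarith
  calc (2 * N + 1 : ℝ) * (2 * N + 1) ≤ 7 * (lam * H) * (7 * (lam * H)) := by gcongr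
    _ = 49 * lam ^ 2 * H ^ 2 := by ring

end Pool.Agent.Helper78.QL
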