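import Pool.Agent.Helper78.QL.S1a

/-!
# QL-S1b: one step for the sum over the arcs, finitely many steps
-/

open MeasureTheory Real Set Filter Topology

set_option autoImplicit false

namespace Pool.Agent.Helper78.QL

open Pool.Agent.Helper22.AE
open Pool.Agent.Helper92.GC (dt tp Tq uu tt arc dd)
open Pool.Agent.Helper60.LT (Fr Tf xf yf df vf fr)
open Pool.Agent.Helper60.QL

/-- the conclusion of the step -/
def StepAt (ε lam : ℝ) (M n : ℕ) (B C B' E : ℝ) (m₀ : ℕ) : Prop :=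
  ∀ (m m' r : ℕ) (X H κ : ℝ) (S : Finset (ℤ × ℤ)), m₀ ≤ m → m ≤ m' → 1 ≤ X → 1 ≤ H → C ≤ κ →
      Cone H lam S → C * κ * (M : ℝ) ^ (4 * m') ≤ X * H → C * κ * (M : ℝ) ^ (4 * m') ≤ (M : ℝ) ^ (5 * m) →
      II B X (arc 0 S (M ^ m) r) ^ (1 / 10 : ℝ) ≤ ENNReal.ofReal (C * κ * (M : ℝ) ^ (ε * (m' : ℝ))) *
        ∑ r' ∈ Finset.range (M ^ m'), (II B' X (arc 0 (arc 0 S (M ^ m) r) (M ^ m') r') +
          ENNReal.ofReal (E * X ^ 4 * (S.card : ℝ) ^ 20 * κ⁻¹ ^ n)) ^ (1 / 10 : ℝ)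

/-- the sum over the arcs of level `m` -/
noncomputable def QQ (M : ℕ) (B X : ℝ) (S : Finset (ℤ × ℤ)) (m : ℕ) : ENNReal :=
  ∑ r ∈ Finset.range (M ^ m), (II B X (arc 0 S (M ^ m) r) + 1) ^ (1 / 10 : ℝ)

theorem QQ_low {M : ℕ} (B X : ℝ) (S : Finset (ℤ × ℤ)) (m : ℕ) : ((M ^ m : ℕ) : ENNReal) ≤ QQ M B X S m := by
  unfold QQ
  have h : ∀ r ∈ Finset.range (M ^ m), (1 : ENNReal) ≤ (II B X (arc 0 S (M ^ m) r) + 1) ^ (1 / 10 : ℝ) := by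
    intro r _
    calc (1 : ENNReal) = 1 ^ (1 / 10 : ℝ) := by rw [ENNReal.one_rpow]
      _ ≤ _ := ENNReal.rpow_le_rpow le_add_self (by norm_num)
  calc ((M ^ m : ℕ) : ENNReal) = ∑ r ∈ Finset.range (M ^ m), (1 : ENNReal) := by simp
    _ ≤ _ := Finset.sum_le_sum h

theorem QQ_ge {M : ℕ} (B X : ℝ) (S : Finset (ℤ × ℤ)) (m : ℕ) : ∑ r ∈ Finset.range (M ^ m), II B X (arc 0 S (M ^ m) r) ^ (1 / 10 : ℝ) ≤ QQ M B X S m := by
  unfold QQ
  exact Finset.sum_le_sum fun r _ => ENNReal.rpow_le_rpow le_self_add (by norm_num)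

theorem QQ_step {ε lam B C B' E : ℝ} {M n m₀ : ℕ} (hε : 0 < ε) (hM : 2 ≤ M) (hC : 1 ≤ C) (hE : 1 ≤ E) (hs : StepAt ε lam M n B C B' E m₀) {m m' : ℕ} {X H κ P : ℝ} {S : Finset (ℤ × ℤ)}
    (hm₀ : m₀ ≤ m) (hm : m ≤ m') (hX : 1 ≤ X) (hH : 1 ≤ H) (hκ : C ≤ κ) (hS : Cone H lam S) (h1 : C * κ * (M : ℝ) ^ (4 * m') ≤ X * H)
    (h2 : C * κ * (M : ℝ) ^ (4 * m') ≤ (M : ℝ) ^ (5 * m)) (hP : (M : ℝ) ^ (ε * (m' : ℝ)) ≤ P)
    (ht : E * X ^ 4 * (S.card : ℝ) ^ 20 * κ⁻¹ ^ n * ((M : ℝ) ^ m * (M : ℝ) ^ m') ^ 10 ≤ 1) :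
    QQ M B X S m ≤ ENNReal.ofReal (3 * C * κ * P) * QQ M B' X S m' := by
  have hM0 : (1 : ℝ) ≤ M := by
    have : 1 ≤ M := by omega
    exact_mod_cast this
  have hκ1 : 1 ≤ κ := hC.trans hκ
  obtain ⟨t, htd⟩ : ∃ t, t = E * X ^ 4 * (S.card : ℝ) ^ 20 * κ⁻¹ ^ n := ⟨_, rfl⟩
  have ht0 : 0 ≤ t := by rw [htd]; positivity
  obtain ⟨K, hK⟩ : ∃ K, K = ENNReal.ofReal (C * κ * P) := ⟨_, rfl⟩
  have hP1 : 1 ≤ P := le_trans (Real.one_le_rpow hM0 (by positivity)) hP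
  have hK1 : 1 ≤ K := by
    rw [hK, ENNReal.one_le_ofReal]
    have : 1 ≤ C * κ := one_le_mul_of_one_le_of_one_le hC hκ1
    exact one_le_mul_of_one_le_of_one_le this hP1
  have hone : ∀ r ∈ Finset.range (M ^ m), (II B X (arc 0 S (M ^ m) r) + 1) ^ (1 / 10 : ℝ) ≤
      K * ∑ r' ∈ Finset.range (M ^ m'), (II B' X (arc 0 (arc 0 S (M ^ m) r) (M ^ m') r') ^ (1 / 10 : ℝ) + ENNReal.ofReal t ^ (1 / 10 : ℝ)) + 1 := by
    intro r _
    refine (ENNReal.rpow_add_le_add_rpow _ _ (by norm_num) (by norm_num)).trans ?_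
    rw [ENNReal.one_rpow]
    refine add_le_add ?_ le_rfl
    refine (hs m m' r X H κ S hm₀ hm hX hH hκ hS h1 h2).trans ?_
    rw [← htd, hK]
    refine mul_le_mul' (ENNReal.ofReal_le_ofReal (by gcongr)) ?_
    exact Finset.sum_le_sum fun r' _ => ENNReal.rpow_add_le_add_rpow _ _ (by norm_num) (by norm_num)
  have hsum : QQ M B X S m ≤ K * (∑ r ∈ Finset.range (M ^ m), ∑ r' ∈ Finset.range (M ^ m'), II B' X (arc 0 (arc 0 S (M ^ m) r) (M ^ m') r') ^ (1 / 10 : ℝ)) +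
      K * (((M ^ m : ℕ) : ENNReal) * (((M ^ m' : ℕ) : ENNReal) * ENNReal.ofReal t ^ (1 / 10 : ℝ))) + ((M ^ m : ℕ) : ENNReal) := by
    unfold QQ
    refine (Finset.sum_le_sum hone).trans (le_of_eq ?_)
    rw [Finset.sum_add_distrib, ← Finset.mul_sum, Finset.sum_const, Finset.card_range, nsmul_eq_mul, mul_one]
    congr 1
    rw [← mul_add]
    congr 1
    simp only [Finset.sum_add_distrib, Finset.sum_const, Finset.card_range, nsmul_eq_mul]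
  have hdbl : ∑ r ∈ Finset.range (M ^ m), ∑ r' ∈ Finset.range (M ^ m'), II B' X (arc 0 (arc 0 S (M ^ m) r) (M ^ m') r') ^ (1 / 10 : ℝ) ≤ QQ M B' X S m' := by
    rw [Finset.sum_comm]
    refine le_trans (Finset.sum_le_sum fun r' _ => ?_) (QQ_ge B' X S m')
    have e : ∀ r : ℕ, II B' X (arc 0 (arc 0 S (M ^ m) r) (M ^ m') r') ^ (1 / 10 : ℝ) =
        if r' / M ^ (m' - m) = r then II B' X (arc 0 S (M ^ m') r') ^ (1 / 10 : ℝ) else 0 := by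
      intro r
      rw [arc_arc (by omega) hm]
      split_ifs
      · rfl
      · rw [II_empty, ENNReal.zero_rpow_of_pos (by norm_num)]
    simp only [e]
    rw [Finset.sum_ite_eq]
    split_ifs
    · exact le_rfl
    · exact zero_le
  have htail : ((M ^ m : ℕ) : ENNReal) * (((M ^ m' : ℕ) : ENNReal) * ENNReal.ofReal t ^ (1 / 10 : ℝ)) ≤ 1 := by
    have c1 : ((M ^ m : ℕ) : ENNReal) = ENNReal.ofReal ((M : ℝ) ^ m) := by
      rw [← ENNReal.ofReal_natCast]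
      push_cast
      rfl
    have c2 : ((M ^ m' : ℕ) : ENNReal) = ENNReal.ofReal ((M : ℝ) ^ m') := by
      rw [← ENNReal.ofReal_natCast]
      push_cast
      rfl
    rw [c1, c2, ENNReal.ofReal_rpow_of_nonneg ht0 (by norm_num), ← ENNReal.ofReal_mul (by positivity), ← ENNReal.ofReal_mul (by positivity),
      ENNReal.ofReal_le_one]
    have h3 : ((M : ℝ) ^ m * ((M : ℝ) ^ m' * t ^ (1 / 10 : ℝ))) ^ 10 ≤ 1 := by
      have h4 : (t ^ (1 / 10 : ℝ)) ^ 10 = t := by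
        rw [← Real.rpow_natCast, ← Real.rpow_mul ht0]
        norm_num
      calc ((M : ℝ) ^ m * ((M : ℝ) ^ m' * t ^ (1 / 10 : ℝ))) ^ 10 = (t ^ (1 / 10 : ℝ)) ^ 10 * ((M : ℝ) ^ m * (M : ℝ) ^ m') ^ 10 := by ring
        _ = t * ((M : ℝ) ^ m * (M : ℝ) ^ m') ^ 10 := by rw [h4]
        _ ≤ 1 := by rw [htd]; exact ht
    by_contra hcon
    push Not at hcon
    have := one_lt_pow₀ hcon (by norm_num : (10 : ℕ) ≠ 0)
    linarith
  have hmm : ((M ^ m : ℕ) : ENNReal) ≤ QQ M B' X S m' := by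
    refine le_trans ?_ (QQ_low B' X S m')
    exact_mod_cast Nat.pow_le_pow_right (by omega) hm
  have hQ1 : 1 ≤ QQ M B' X S m' := by
    refine le_trans ?_ (QQ_low B' X S m')
    exact_mod_cast Nat.one_le_pow _ _ (by omega)
  have e3 : ENNReal.ofReal (3 * C * κ * P) = K + K + K := by
    rw [hK, ← ENNReal.ofReal_add (by positivity) (by positivity), ← ENNReal.ofReal_add (by positivity) (by positivity)]
    congr 1
    ring
  rw [e3, add_mul, add_mul]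
  refine hsum.trans (add_le_add (add_le_add (mul_le_mul' le_rfl hdbl) (mul_le_mul' le_rfl (htail.trans hQ1))) ?_)
  calc ((M ^ m : ℕ) : ENNReal) ≤ 1 * QQ M B' X S m' := by rw [one_mul]; exact hmm
    _ ≤ K * QQ M B' X S m' := mul_le_mul' hK1 le_rfl

/-- finitely many steps -/
theorem chain {ε lam : ℝ} {M n : ℕ} (hε : 0 < ε) (hM : 2 ≤ M)
    (hs : ∀ B : ℝ, 1 ≤ B → ∃ C B' E : ℝ, ∃ m₀ : ℕ, 1 ≤ C ∧ B ≤ B' ∧ 1 ≤ E ∧ StepAt ε lam M n B C B' E m₀) (J : ℕ) :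
    ∀ B : ℝ, 1 ≤ B → ∃ C B' E : ℝ, ∃ m₀ : ℕ, 1 ≤ C ∧ B ≤ B' ∧ 1 ≤ E ∧ ∀ (μ : ℕ → ℕ) (X H κ P : ℝ) (S : Finset (ℤ × ℤ)),
      m₀ ≤ μ 0 → (∀ j, μ j ≤ μ (j + 1)) → 1 ≤ X → 1 ≤ H → C ≤ κ → Cone H lam S → 1 ≤ P → (∀ j < J, C * κ * (M : ℝ) ^ (4 * μ (j + 1)) ≤ X * H) →
      (∀ j < J, C * κ * (M : ℝ) ^ (4 * μ (j + 1)) ≤ (M : ℝ) ^ (5 * μ j)) → (∀ j < J, (M : ℝ) ^ (ε * (μ (j + 1) : ℝ)) ≤ P) →
      (∀ j < J, E * X ^ 4 * (S.card : ℝ) ^ 20 * κ⁻¹ ^ n * ((M : ℝ) ^ μ j * (M : ℝ) ^ μ (j + 1)) ^ 10 ≤ 1) →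
      QQ M B X S (μ 0) ≤ ENNReal.ofReal ((C * κ * P) ^ J) * QQ M B' X S (μ J) := by
  induction J with
  | zero =>
    intro B hB
    refine ⟨1, B, 1, 0, le_rfl, le_rfl, le_rfl, ?_⟩
    intro μ X H κ P S _ _ _ _ _ _ _ _ _ _ _
    rw [pow_zero, ENNReal.ofReal_one, one_mul]
  | succ J ih =>
    intro B hB
    obtain ⟨C₁, B₁, E₁, n₁, hC₁, hB₁, hE₁, hs₁⟩ := hs B hB
    obtain ⟨C₂, B₂, E₂, n₂, hC₂, hB₂, hE₂, hs₂⟩ := ih B₁ (hB.trans hB₁)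
    refine ⟨max (3 * C₁) C₂, B₂, max E₁ E₂, max n₁ n₂, le_max_of_le_right hC₂, hB₁.trans hB₂, le_max_of_le_left hE₁, ?_⟩
    intro μ X H κ P S hμ0 hμ hX hH hκ hS hP h1 h2 h3 h4
    obtain ⟨C, hC⟩ : ∃ C, C = max (3 * C₁) C₂ := ⟨_, rfl⟩
    obtain ⟨E, hE⟩ : ∃ E, E = max E₁ E₂ := ⟨_, rfl⟩
    rw [← hC] at hκ h1 h2
    rw [← hE] at h4
    rw [← hC]
    have hC3 : 3 * C₁ ≤ C := by rw [hC]; exact le_max_left _ _
    have hC2 : C₂ ≤ C := by rw [hC]; exact le_max_right _ _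
    have hE1 : E₁ ≤ E := by rw [hE]; exact le_max_left _ _
    have hE2 : E₂ ≤ E := by rw [hE]; exact le_max_right _ _
    have hC1 : C₁ ≤ C := by linarith
    have hCp : 0 < C := by linarith
    have hκ0 : 0 < κ := by linarith
    have hM0 : (0 : ℝ) < M := by
      have : 0 < M := by omega
      exact_mod_cast this
    have st1 : QQ M B X S (μ 0) ≤ ENNReal.ofReal (3 * C₁ * κ * P) * QQ M B₁ X S (μ 1) := by
      refine QQ_step hε hM hC₁ hE₁ hs₁ ((le_max_left _ _).trans hμ0) (hμ 0) hX hH (hC1.trans hκ) hS ?_ ?_ (h3 0 (by omega)) ?_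
      · refine le_trans ?_ (h1 0 (by omega))
        gcongr
      · refine le_trans ?_ (h2 0 (by omega))
        gcongr
      · refine le_trans ?_ (h4 0 (by omega))
        gcongr
    have st2 : QQ M B₁ X S (μ 1) ≤ ENNReal.ofReal ((C₂ * κ * P) ^ J) * QQ M B₂ X S (μ (J + 1)) := by
      refine hs₂ (fun j => μ (j + 1)) X H κ P S ?_ (fun j => hμ (j + 1)) hX hH (hC2.trans hκ) hS hP ?_ ?_ ?_ ?_
      · exact ((le_max_right _ _).trans hμ0).trans (hμ 0)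
      · intro j hj
        refine le_trans ?_ (h1 (j + 1) (by omega))
        gcongr
      · intro j hj
        refine le_trans ?_ (h2 (j + 1) (by omega))
        gcongr
      · intro j hj
        exact h3 (j + 1) (by omega)
      · intro j hj
        refine le_trans ?_ (h4 (j + 1) (by omega))
        gcongr
    refine st1.trans ((mul_le_mul' le_rfl st2).trans ?_)
    rw [← mul_assoc, ← ENNReal.ofReal_mul (by positivity)]
    refine mul_le_mul' (ENNReal.ofReal_le_ofReal ?_) le_rfl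
    rw [pow_succ']
    gcongr

end Pool.Agent.Helper78.QL
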